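import Pool.Agent.H102R3.FR.Stmts

open MeasureTheory ProbabilityTheory Filter Topology
open scoped ENNReal NNReal

namespace Pool.Agent.H105R3.FRPart

open Pool.Agent.H102R3.FR

theorem stay_nonneg {V : Type} [Fintype V] [DecidableEq V] (G : SimpleGraph V)
    [DecidableRel G.Adj] (A : Finset V) (j : ℕ) : ∀ x, 0 ≤ stay G A j x := by
  induction j with
  | zero =>
    intro x
    simp only [stay]
    split_ifs <;> norm_num
  | succ j ih =>
    intro x
    simp only [stay]
    split_ifs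
    · exact div_nonneg (Finset.sum_nonneg fun y _ => ih y) (Nat.cast_nonneg _)
    · exact le_rfl

theorem measurable_walk {V : Type} [Fintype V] [MeasurableSpace V]
    [DiscreteMeasurableSpace V] (v : V) (k : ℕ) :
    Measurable (fun c : ℕ × V → V => walk c v k) := by
  induction k with
  | zero => exact measurable_const
  | succ k ih =>
    apply measurable_to_countable'
    intro y
    have : (fun c : ℕ × V → V => walk c v (k + 1)) ⁻¹' {y} =
        ⋃ x : V, ((fun c : ℕ × V → V => walk c v k) ⁻¹' {x}) ∩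
          ((fun c : ℕ × V → V => c (k, x)) ⁻¹' {y}) := by
      ext c
      simp only [Set.mem_preimage, Set.mem_singleton_iff, Set.mem_iUnion, Set.mem_inter_iff, walk]
      constructor
      · intro h
        exact ⟨_, rfl, h⟩
      · rintro ⟨x, rfl, h⟩
        exact h
    rw [this]
    refine MeasurableSet.iUnion fun x => ?_
    exact (ih (measurableSet_singleton x)).inter
      ((measurable_pi_apply (k, x)) (measurableSet_singleton y))

theorem measurableSet_W {V : Type} [Fintype V] [DecidableEq V] [MeasurableSpace V]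
    [DiscreteMeasurableSpace V] (A : Finset V) (j : ℕ) (v : V) :
    MeasurableSet {c : ℕ × V → V | ∀ k ≤ j, walk c v k ∈ A} := by
  have : {c : ℕ × V → V | ∀ k ≤ j, walk c v k ∈ A} =
      ⋂ k : ℕ, ⋂ _ : k ≤ j, (fun c : ℕ × V → V => walk c v k) ⁻¹' (A : Set V) := by
    ext c
    simp
  rw [this]
  refine MeasurableSet.iInter fun k => MeasurableSet.iInter fun _ => ?_
  exact measurable_walk v k (MeasurableSet.of_discrete)

theorem taskPart : TaskWalk → TaskPart := by
  intro hW V _ _ _ _ G _ hd A j v lam z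
  have hWm := measurableSet_W A j v
  have hp := hW V G hd A j v
  obtain ⟨W, hWdef⟩ : ∃ W : Set (ℕ × V → V), W = {c | ∀ k ≤ j, walk c v k ∈ A} := ⟨_, rfl⟩
  rw [← hWdef] at hWm hp
  obtain ⟨s, hs⟩ : ∃ s : ℝ, s = stay G A j v := ⟨_, rfl⟩
  have hs0 : 0 ≤ s := by rw [hs]; exact stay_nonneg G A j v
  rw [← hs] at hp ⊢
  -- the event for a fixed number of particles
  have hEset : ∀ n : ℕ, {c : ℕ × ℕ × V → V | ∀ i < n, ∀ k ≤ j, walk (fun p => c (i, p)) v k ∈ A} =
      (MeasurableEquiv.curry ℕ (ℕ × V) V) ⁻¹'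
        (Set.pi (Finset.range n : Finset ℕ) (fun _ => W)) := by
    intro n
    ext c
    rw [hWdef]
    simp only [Set.mem_preimage, Set.mem_pi, Finset.coe_range, Set.mem_Iio, Set.mem_ofPred_eq]
    rfl
  have hpim : ∀ n : ℕ, MeasurableSet
      (Set.pi ((Finset.range n : Finset ℕ) : Set ℕ) (fun _ => W)) := by
    intro n
    exact MeasurableSet.pi (Finset.countable_toSet _) fun _ _ => hWm
  have hEm : ∀ n : ℕ, MeasurableSet
      {c : ℕ × ℕ × V → V | ∀ i < n, ∀ k ≤ j, walk (fun p => c (i, p)) v k ∈ A} := by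
    intro n
    rw [hEset n]
    exact (MeasurableEquiv.curry ℕ (ℕ × V) V).measurable (hpim n)
  have hE : ∀ n : ℕ, (Measure.infinitePi (fun j : ℕ × ℕ × V => nbr G j.2.2))
      {c : ℕ × ℕ × V → V | ∀ i < n, ∀ k ≤ j, walk (fun p => c (i, p)) v k ∈ A} =
      (ENNReal.ofReal s) ^ n := by
    intro n
    rw [hEset n, ← Measure.map_apply (MeasurableEquiv.curry ℕ (ℕ × V) V).measurable (hpim n)]
    have h1 := Measure.infinitePi_map_curry (fun (_ : ℕ) (j : ℕ × V) => nbr G j.2)
    have h2 : (Measure.infinitePi fun p : ℕ × ℕ × V => nbr G p.2.2) =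
      (Measure.infinitePi fun p : ℕ × (ℕ × V) => (fun (_ : ℕ) (j : ℕ × V) => nbr G j.2) p.1 p.2) :=
      rfl
    rw [h2, h1, Measure.infinitePi_pi]
    · rw [Finset.prod_const, Finset.card_range]
      congr 1
    · intro i _
      exact hWm
  have hmeas : Measurable (fun w : ℕ × (ℕ × ℕ × V → V) => (z : ℝ≥0∞) ^ w.1 * Set.indicator
      {w : ℕ × (ℕ × ℕ × V → V) | ∀ i < w.1, ∀ k ≤ j, walk (fun p => w.2 (i, p)) v k ∈ A} 1 w) := by
    apply measurable_from_prod_countable_right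
    intro n
    have : (fun c : ℕ × ℕ × V → V => (z : ℝ≥0∞) ^ n * Set.indicator
      {w : ℕ × (ℕ × ℕ × V → V) | ∀ i < w.1, ∀ k ≤ j, walk (fun p => w.2 (i, p)) v k ∈ A} 1 (n, c)) =
      fun c => (z : ℝ≥0∞) ^ n * Set.indicator
        {c : ℕ × ℕ × V → V | ∀ i < n, ∀ k ≤ j, walk (fun p => c (i, p)) v k ∈ A} 1 c := by
      funext c
      rfl
    rw [this]
    exact (measurable_one.indicator (hEm n)).const_mul _
  unfold vlaw
  rw [lintegral_prod _ hmeas.aemeasurable]
  have hinner : ∀ n : ℕ, ∫⁻ c : ℕ × ℕ × V → V, (z : ℝ≥0∞) ^ n * Set.indicator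
      {w : ℕ × (ℕ × ℕ × V → V) | ∀ i < w.1, ∀ k ≤ j, walk (fun p => w.2 (i, p)) v k ∈ A} 1 (n, c)
      ∂(Measure.infinitePi (fun j : ℕ × ℕ × V => nbr G j.2.2)) =
      (z : ℝ≥0∞) ^ n * (ENNReal.ofReal s) ^ n := by
    intro n
    have : ∀ c : ℕ × ℕ × V → V, (z : ℝ≥0∞) ^ n * Set.indicator
      {w : ℕ × (ℕ × ℕ × V → V) | ∀ i < w.1, ∀ k ≤ j, walk (fun p => w.2 (i, p)) v k ∈ A} 1 (n, c) =
      (z : ℝ≥0∞) ^ n * Set.indicator
        {c : ℕ × ℕ × V → V | ∀ i < n, ∀ k ≤ j, walk (fun p => c (i, p)) v k ∈ A} 1 c := by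
      intro c
      rfl
    simp_rw [this]
    rw [lintegral_const_mul _ (measurable_one.indicator (hEm n)), lintegral_indicator_one (hEm n),
      hE n]
  have hout : ∫⁻ n : ℕ, ((z : ℝ≥0∞) ^ n * (ENNReal.ofReal s) ^ n) ∂(poissonMeasure lam) =
      ENNReal.ofReal (Real.exp (lam * (z * s - 1))) := by
    unfold poissonMeasure
    rw [lintegral_sum_measure]
    simp_rw [lintegral_smul_measure, lintegral_dirac]
    have hterm : ∀ n : ℕ, ENNReal.ofReal (Real.exp (-(lam : ℝ)) * (lam : ℝ) ^ n / (n.factorial : ℝ)) •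
        ((z : ℝ≥0∞) ^ n * (ENNReal.ofReal s) ^ n) =
        ENNReal.ofReal (Real.exp (-(lam : ℝ)) * (((lam : ℝ) * z * s) ^ n / (n.factorial : ℝ))) := by
      intro n
      have hz : (z : ℝ≥0∞) = ENNReal.ofReal (z : ℝ) := by simp
      rw [smul_eq_mul, hz, ← ENNReal.ofReal_pow (NNReal.coe_nonneg z), ← ENNReal.ofReal_pow hs0,
        ← ENNReal.ofReal_mul (by positivity), ← ENNReal.ofReal_mul (by positivity)]
      congr 1
      rw [mul_pow, mul_pow]
      ring
    simp_rw [hterm]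
    have hsum := (NormedSpace.expSeries_div_hasSum_exp ((lam : ℝ) * z * s)).mul_left
      (Real.exp (-(lam : ℝ)))
    have hnn : ∀ n : ℕ, 0 ≤ Real.exp (-(lam : ℝ)) *
        (((lam : ℝ) * z * s) ^ n / (n.factorial : ℝ)) := by
      intro n
      positivity
    rw [← ENNReal.ofReal_tsum_of_nonneg hnn hsum.summable, hsum.tsum_eq, ← Real.exp_eq_exp_ℝ,
      ← Real.exp_add]
    congr 2
    ring
  rw [← hout]
  refine lintegral_congr fun n => ?_
  exact hinner n

end Pool.Agent.H105R3.FRPart
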