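import Pool.Agent.H695R3.PP.Stmts

set_option autoImplicit false

namespace Pool.Agent.H105R3.LPCard

open Polynomial
open Pool.Agent.H695R3.PP

/-- the solution polynomials from the left end -/
noncomputable def Q (V : ℤ → ℝ) (a : ℤ) : ℕ → ℝ[X] × ℝ[X]
  | 0 => (0, 1)
  | k + 1 => ((Q V a k).2, (X - C (V (a + k))) * (Q V a k).2 - (Q V a k).1)

theorem Q_deg (V : ℤ → ℝ) (a : ℤ) (k : ℕ) :
    (Q V a k).2.Monic ∧ (Q V a k).2.natDegree = k ∧ (Q V a k).1.degree < (k : WithBot ℕ) := by
  induction k with
  | zero =>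
    refine ⟨monic_one, natDegree_one, ?_⟩
    show (0 : ℝ[X]).degree < ((0 : ℕ) : WithBot ℕ)
    rw [degree_zero]
    exact WithBot.bot_lt_coe _
  | succ k ih =>
    obtain ⟨h1, h2, h3⟩ := ih
    have hX : (X - C (V (a + k)) : ℝ[X]).Monic := monic_X_sub_C _
    have hm : ((X - C (V (a + k))) * (Q V a k).2).Monic := hX.mul h1
    have hd : ((X - C (V (a + k))) * (Q V a k).2).natDegree = k + 1 := by
      rw [hX.natDegree_mul h1, natDegree_X_sub_C, h2, add_comm]
    have hdeg : ((X - C (V (a + k))) * (Q V a k).2).degree = ((k + 1 : ℕ) : WithBot ℕ) := by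
      rw [degree_eq_natDegree hm.ne_zero, hd]
    have hlt : (Q V a k).1.degree < ((X - C (V (a + k))) * (Q V a k).2).degree := by
      rw [hdeg]
      refine h3.trans ?_
      exact_mod_cast Nat.lt_succ_self k
    refine ⟨?_, ?_, ?_⟩
    · show ((X - C (V (a + k))) * (Q V a k).2 - (Q V a k).1).Monic
      exact hm.sub_of_left hlt
    · show ((X - C (V (a + k))) * (Q V a k).2 - (Q V a k).1).natDegree = k + 1
      rw [natDegree_eq_of_degree_eq (degree_sub_eq_left_of_degree_lt hlt), hd]
    · show (Q V a k).2.degree < ((k + 1 : ℕ) : WithBot ℕ)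
      rw [degree_eq_natDegree h1.ne_zero, h2]
      exact_mod_cast Nat.lt_succ_self k

theorem taskCard : TaskCard := by
  intro V a b hab
  classical
  obtain ⟨N, hN⟩ : ∃ N : ℕ, (N : ℤ) = b - a + 1 := ⟨(b - a + 1).toNat, by omega⟩
  obtain ⟨h1, h2, -⟩ := Q_deg V a N
  refine ⟨(Q V a N).2.roots.toFinset, ?_, ?_⟩
  · rw [← hN]
    have h3 := Multiset.toFinset_card_le (Q V a N).2.roots
    have h4 := card_roots' (Q V a N).2
    rw [h2] at h4
    exact_mod_cast h3.trans h4
  · intro E ψ hψ
    obtain ⟨hout, hnorm, heq⟩ := hψ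
    have key : ∀ k : ℕ, k ≤ N → ψ (a + k - 1) = ψ a * (Q V a k).1.eval E ∧
        ψ (a + k) = ψ a * (Q V a k).2.eval E := by
      intro k
      induction k with
      | zero =>
        intro _
        refine ⟨?_, ?_⟩
        · rw [hout _ (Or.inl (by push_cast; omega))]
          simp [Q]
        · simp [Q]
      | succ k ih =>
        intro hk
        obtain ⟨i1, i2⟩ := ih (by omega)
        refine ⟨?_, ?_⟩
        · have e : a + ((k + 1 : ℕ) : ℤ) - 1 = a + k := by push_cast; ring
          rw [e]
          exact i2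
        · have e : a + ((k + 1 : ℕ) : ℤ) = a + k + 1 := by push_cast; ring
          have h5 := heq (a + k) (by omega) (by omega)
          rw [e]
          have h6 : ψ (a + k + 1) = (E - V (a + k)) * ψ (a + k) - ψ (a + k - 1) := by linarith
          rw [h6, i1, i2]
          show _ = ψ a * ((X - C (V (a + k))) * (Q V a k).2 - (Q V a k).1).eval E
          rw [eval_sub, eval_mul, eval_sub, eval_X, eval_C]
          ring
    have ha : ψ a ≠ 0 := by
      intro h0
      have hz : ∀ n ∈ Finset.Icc a b, ψ n ^ 2 = 0 := by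
        intro n hn
        rw [Finset.mem_Icc] at hn
        obtain ⟨k, hk⟩ : ∃ k : ℕ, (k : ℤ) = n - a := ⟨(n - a).toNat, by omega⟩
        have h7 := (key k (by omega)).2
        have e : a + (k : ℤ) = n := by omega
        rw [e, h0, zero_mul] at h7
        rw [h7]
        norm_num
      have h8 : nsq a b ψ = 0 := by
        unfold nsq
        exact Finset.sum_eq_zero hz
      rw [h8] at hnorm
      exact zero_ne_one hnorm
    have hend := (key N le_rfl).2
    rw [hout _ (Or.inr (by omega))] at hend
    have h9 : (Q V a N).2.eval E = 0 := by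
      rcases mul_eq_zero.mp hend.symm with h | h
      · exact absurd h ha
      · exact h
    rw [Multiset.mem_toFinset, mem_roots h1.ne_zero]
    exact h9

end Pool.Agent.H105R3.LPCard
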