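import Pool.Agent.H110R3.Urn.Stmts

/-!
# Task N1 of the graph-based Polya urn project (MP_cd93fa_pr)
-/

namespace Pool.Agent.H105R3.UrnN1

open Pool.Agent.H110R3.Urn

/-- the quadratic form is bounded by a multiple of the sum of squares -/
theorem qf_bound {m : ℕ} (Q : Fin m → Fin m → ℝ) (z : Fin m → ℝ) :
    |Qf Q z| ≤ (∑ i, ∑ j, |Q i j|) * ∑ i, (z i) ^ 2 := by
  have key : ∀ i j, |Q i j * z i * z j| ≤ |Q i j| * ∑ k, (z k) ^ 2 := by
    intro i j
    have h1 : |Q i j * z i * z j| = |Q i j| * (|z i| * |z j|) := by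
      rw [abs_mul, abs_mul, mul_assoc]
    rw [h1]
    apply mul_le_mul_of_nonneg_left _ (abs_nonneg _)
    have hi : (z i) ^ 2 ≤ ∑ k, (z k) ^ 2 :=
      Finset.single_le_sum (f := fun k => (z k) ^ 2) (fun k _ => sq_nonneg _) (Finset.mem_univ i)
    have hj : (z j) ^ 2 ≤ ∑ k, (z k) ^ 2 :=
      Finset.single_le_sum (f := fun k => (z k) ^ 2) (fun k _ => sq_nonneg _) (Finset.mem_univ j)
    have h2 : |z i| * |z j| ≤ ((z i) ^ 2 + (z j) ^ 2) / 2 := by
      have := sq_nonneg (|z i| - |z j|)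
      have e1 := sq_abs (z i)
      have e2 := sq_abs (z j)
      nlinarith
    linarith
  unfold Qf
  calc |∑ i, ∑ j, Q i j * z i * z j| ≤ ∑ i, |∑ j, Q i j * z i * z j| :=
        Finset.abs_sum_le_sum_abs _ _
    _ ≤ ∑ i, ∑ j, |Q i j * z i * z j| :=
        Finset.sum_le_sum fun i _ => Finset.abs_sum_le_sum_abs _ _
    _ ≤ ∑ i, ∑ j, |Q i j| * ∑ k, (z k) ^ 2 :=
        Finset.sum_le_sum fun i _ => Finset.sum_le_sum fun j _ => key i j
    _ = (∑ i, ∑ j, |Q i j|) * ∑ i, (z i) ^ 2 := by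
        rw [Finset.sum_mul]
        exact Finset.sum_congr rfl fun i _ => by rw [Finset.sum_mul]

/-- the final real inequality -/
theorem final_ineq (T S N c σ θ C CQ E M V : ℝ) (hT : 0 < T) (hS1 : 1 ≤ S) (hN : 0 < N)
    (hNS : N ≤ S) (hTS : T ≤ S) (hc : 0 < c) (hσ : 0 < σ) (hθ : 0 < θ) (hC : 0 < C)
    (hCQ : 0 ≤ CQ) (hE : 0 ≤ E) (hSQ : 4 * CQ / c ^ 2 ≤ S)
    (hθc : θ ≤ c / (8 * C ^ 2)) (hθσ : θ ≤ σ / (8 * C ^ 2))
    (hM : 2 / (S + N) * (c * E) + 1 / (S + N) ^ 2 * (2 * σ - CQ * ((1 / c) * E)) ≤ M)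
    (hV : V ≤ (θ * T * (C * (Real.sqrt E / S + 1 / S ^ 2))) ^ 2) :
    1 - θ * T * M + V ≤ 1 - min (θ * c / 2) (θ * σ / 4) * T * E / S -
      min (θ * c / 2) (θ * σ / 4) * T / S ^ 2 := by
  have hS : 0 < S := by linarith
  have hSN : 0 < S + N := by linarith
  set u : ℝ := 1 / S with hu
  have hu0 : 0 < u := by positivity
  have hu1 : u ≤ 1 := by
    rw [hu, div_le_one hS]; exact hS1
  set γ : ℝ := 1 / (S + N) with hγ
  have hγ0 : 0 < γ := by positivity
  have hγ1 : u / 2 ≤ γ := by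
    rw [hu, hγ, div_div, div_le_div_iff₀ (by positivity) hSN]
    linarith
  have hγ2 : γ ≤ u := by
    rw [hu, hγ, div_le_div_iff₀ hSN hS]
    linarith
  have hM' : 2 * γ * (c * E) + γ ^ 2 * (2 * σ - CQ / c * E) ≤ M := by
    have e1 : 2 / (S + N) = 2 * γ := by rw [hγ]; ring
    have e2 : 1 / (S + N) ^ 2 = γ ^ 2 := by rw [hγ, div_pow, one_pow]
    rw [e1, e2] at hM
    have e3 : CQ * (1 / c * E) = CQ / c * E := by ring
    rw [e3] at hM
    exact hM
  have hQ1 : CQ / c * u ≤ c / 4 := by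
    rw [hu]
    rw [div_mul_div_comm, mul_one, div_le_div_iff₀ (by positivity) (by norm_num)]
    rw [div_le_iff₀ (by positivity)] at hSQ
    nlinarith
  have hTu : T * u ≤ 1 := by
    rw [hu, mul_one_div, div_le_one hS]; exact hTS
  -- lower bound of the mean
  have hcE : 0 ≤ c * E := by positivity
  have m1 : c * E * u ≤ 2 * γ * (c * E) := by nlinarith
  have m2 : σ * u ^ 2 / 2 ≤ γ ^ 2 * (2 * σ) := by
    have : (u / 2) ^ 2 ≤ γ ^ 2 := pow_le_pow_left₀ (by positivity) hγ1 2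
    nlinarith
  have m3 : γ ^ 2 * (CQ / c * E) ≤ c / 4 * E * u := by
    have h1 : γ ^ 2 ≤ u ^ 2 := pow_le_pow_left₀ hγ0.le hγ2 2
    have h2 : 0 ≤ CQ / c * E := by positivity
    calc γ ^ 2 * (CQ / c * E) ≤ u ^ 2 * (CQ / c * E) := mul_le_mul_of_nonneg_right h1 h2
      _ = (CQ / c * u) * (E * u) := by ring
      _ ≤ (c / 4) * (E * u) := mul_le_mul_of_nonneg_right hQ1 (by positivity)
      _ = c / 4 * E * u := by ring
  have hMlow : 3 / 4 * (c * E * u) + σ * u ^ 2 / 2 ≤ M := by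
    have : 2 * γ * (c * E) + γ ^ 2 * (2 * σ - CQ / c * E) =
      2 * γ * (c * E) + γ ^ 2 * (2 * σ) - γ ^ 2 * (CQ / c * E) := by ring
    rw [this] at hM'
    linarith
  -- the second moment
  have hsq : (Real.sqrt E) ^ 2 = E := Real.sq_sqrt hE
  have hV1 : V ≤ θ * T * (2 * C ^ 2 * θ) * (T * u) * (E * u + u ^ 3) := by
    refine hV.trans ?_
    have e1 : Real.sqrt E / S = Real.sqrt E * u := by rw [hu]; ring
    have e2 : 1 / S ^ 2 = u ^ 2 := by rw [hu, div_pow, one_pow]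
    rw [e1, e2]
    have h3 : (Real.sqrt E * u + u ^ 2) ^ 2 ≤ 2 * (E * u ^ 2 + u ^ 4) := by
      have := sq_nonneg (Real.sqrt E * u - u ^ 2)
      have e3 : (Real.sqrt E * u) ^ 2 = E * u ^ 2 := by rw [mul_pow, hsq]
      nlinarith
    calc (θ * T * (C * (Real.sqrt E * u + u ^ 2))) ^ 2
        = (θ * T * C) ^ 2 * (Real.sqrt E * u + u ^ 2) ^ 2 := by ring
      _ ≤ (θ * T * C) ^ 2 * (2 * (E * u ^ 2 + u ^ 4)) :=
          mul_le_mul_of_nonneg_left h3 (by positivity)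
      _ = θ * T * (2 * C ^ 2 * θ) * (T * u) * (E * u + u ^ 3) := by ring
  have hθ1 : 2 * C ^ 2 * θ ≤ c / 4 := by
    rw [le_div_iff₀ (by positivity)] at hθc
    linarith
  have hθ2 : 2 * C ^ 2 * θ ≤ σ / 4 := by
    rw [le_div_iff₀ (by positivity)] at hθσ
    linarith
  have hθT : 0 < θ * T := by positivity
  have hV2 : V ≤ θ * T * (c / 4 * (E * u) + σ / 4 * u ^ 2) := by
    refine hV1.trans ?_
    have hEu : 0 ≤ E * u := by positivity
    have hu3 : 0 ≤ u ^ 3 := by positivity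
    have hu32 : u ^ 3 ≤ u ^ 2 := pow_le_pow_of_le_one hu0.le hu1 (by norm_num)
    have s1 : (2 * C ^ 2 * θ) * (T * u) * (E * u) ≤ c / 4 * (E * u) := by
      apply mul_le_mul_of_nonneg_right _ hEu
      calc (2 * C ^ 2 * θ) * (T * u) ≤ (2 * C ^ 2 * θ) * 1 :=
            mul_le_mul_of_nonneg_left hTu (by positivity)
        _ ≤ c / 4 := by linarith
    have s2 : (2 * C ^ 2 * θ) * (T * u) * u ^ 3 ≤ σ / 4 * u ^ 2 := by
      calc (2 * C ^ 2 * θ) * (T * u) * u ^ 3 ≤ (2 * C ^ 2 * θ) * 1 * u ^ 3 := by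
            apply mul_le_mul_of_nonneg_right _ hu3
            exact mul_le_mul_of_nonneg_left hTu (by positivity)
        _ ≤ σ / 4 * u ^ 3 := by
            apply mul_le_mul_of_nonneg_right _ hu3
            linarith
        _ ≤ σ / 4 * u ^ 2 := mul_le_mul_of_nonneg_left hu32 (by positivity)
    calc θ * T * (2 * C ^ 2 * θ) * (T * u) * (E * u + u ^ 3)
        = θ * T * ((2 * C ^ 2 * θ) * (T * u) * (E * u) +
            (2 * C ^ 2 * θ) * (T * u) * u ^ 3) := by ring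
      _ ≤ θ * T * (c / 4 * (E * u) + σ / 4 * u ^ 2) :=
          mul_le_mul_of_nonneg_left (by linarith) hθT.le
  have hM2 : θ * T * (3 / 4 * (c * E * u) + σ * u ^ 2 / 2) ≤ θ * T * M :=
    mul_le_mul_of_nonneg_left hMlow hθT.le
  have k1 : min (θ * c / 2) (θ * σ / 4) * T * E / S ≤ θ * T * (c / 2 * (E * u)) := by
    have : min (θ * c / 2) (θ * σ / 4) * T * E / S =
      min (θ * c / 2) (θ * σ / 4) * (T * (E * u)) := by rw [hu]; ring
    rw [this]
    calc min (θ * c / 2) (θ * σ / 4) * (T * (E * u)) ≤ (θ * c / 2) * (T * (E * u)) :=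
          mul_le_mul_of_nonneg_right (min_le_left _ _) (by positivity)
      _ = θ * T * (c / 2 * (E * u)) := by ring
  have k2 : min (θ * c / 2) (θ * σ / 4) * T / S ^ 2 ≤ θ * T * (σ / 4 * u ^ 2) := by
    have : min (θ * c / 2) (θ * σ / 4) * T / S ^ 2 =
      min (θ * c / 2) (θ * σ / 4) * (T * u ^ 2) := by
        rw [hu, div_pow, one_pow]; ring
    rw [this]
    calc min (θ * c / 2) (θ * σ / 4) * (T * u ^ 2) ≤ (θ * σ / 4) * (T * u ^ 2) :=
          mul_le_mul_of_nonneg_right (min_le_right _ _) (by positivity)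
      _ = θ * T * (σ / 4 * u ^ 2) := by ring
  nlinarith [hM2, hV2, k1, k2]

theorem taskN1 : TaskN1 := by
  intro hA1 hN0 hN1a hN1b hA2 hA3 m G _ hm hNE α v Q ρ c σ hρ hc hσ hRep
  obtain ⟨hQs, hR1, hR2, hR3⟩ := hRep
  obtain ⟨C, hC, hCb⟩ := hN1b hA3 m G hm Q
  obtain ⟨CQ, hCQdef⟩ : ∃ CQ : ℝ, CQ = ∑ i, ∑ j, |Q i j| := ⟨_, rfl⟩
  have hCQ0 : 0 ≤ CQ := by
    rw [hCQdef]
    exact Finset.sum_nonneg fun i _ => Finset.sum_nonneg fun j _ => abs_nonneg _
  have hNEr : (0 : ℝ) < NE G := by exact_mod_cast hNE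
  obtain ⟨B, hB⟩ : ∃ B : ℝ, B = Real.sqrt (m * (2 * ρ) ^ 2) + 1 := ⟨_, rfl⟩
  have hB1 : 0 < B := by rw [hB]; positivity
  obtain ⟨θ, hθdef⟩ : ∃ θ : ℝ, θ = min (1 / (C * B)) (min (c / (8 * C ^ 2)) (σ / (8 * C ^ 2))) :=
    ⟨_, rfl⟩
  have hθ0 : 0 < θ := by
    rw [hθdef]
    exact lt_min (by positivity) (lt_min (by positivity) (by positivity))
  have hθB : θ * (C * B) ≤ 1 := by
    have : θ ≤ 1 / (C * B) := by rw [hθdef]; exact min_le_left _ _
    rwa [le_div_iff₀ (by positivity)] at this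
  have hθc : θ ≤ c / (8 * C ^ 2) := by
    rw [hθdef]; exact (min_le_right _ _).trans (min_le_left _ _)
  have hθσ : θ ≤ σ / (8 * C ^ 2) := by
    rw [hθdef]; exact (min_le_right _ _).trans (min_le_right _ _)
  refine ⟨θ, min (θ * c / 2) (θ * σ / 4), max 1 (max (NE G) (4 * CQ / c ^ 2)), hθ0,
    lt_min (by positivity) (by positivity), lt_of_lt_of_le one_pos (le_max_left _ _), ?_⟩
  intro T hT b b' hb hb' htot hTb hXb hXb'
  have hT1 : 1 ≤ T := (le_max_left _ _).trans hT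
  have hTN : (NE G : ℝ) ≤ T := ((le_max_left _ _).trans (le_max_right _ _)).trans hT
  have hTQ : 4 * CQ / c ^ 2 ≤ T := ((le_max_right _ _).trans (le_max_right _ _)).trans hT
  obtain ⟨S, hSdef⟩ : ∃ S : ℝ, S = tot b := ⟨_, rfl⟩
  have hS1 : 1 ≤ S := by rw [hSdef]; linarith
  have hSpos : 0 < S := by linarith
  have hTS : T ≤ S := by rw [hSdef]; exact hTb
  obtain ⟨E, hEdef⟩ : ∃ E : ℝ, E = ∑ i, (X b i - X b' i) ^ 2 := ⟨_, rfl⟩
  have hE0 : 0 ≤ E := by rw [hEdef]; exact Finset.sum_nonneg fun i _ => sq_nonneg _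
  have hEb : E ≤ m * (2 * ρ) ^ 2 := by
    rw [hEdef]
    have : ∀ i ∈ (Finset.univ : Finset (Fin m)), (X b i - X b' i) ^ 2 ≤ (2 * ρ) ^ 2 := by
      intro i _
      have h1 := abs_lt.mp (hXb i)
      have h2 := abs_lt.mp (hXb' i)
      apply sq_le_sq'
      · linarith
      · linarith
    calc ∑ i, (X b i - X b' i) ^ 2 ≤ ∑ _i : Fin m, (2 * ρ) ^ 2 := Finset.sum_le_sum this
      _ = m * (2 * ρ) ^ 2 := by simp
  obtain ⟨hw0, hw1, _⟩ := hA1 m G α b hb
  obtain ⟨hw0', hw1', _⟩ := hA1 m G α b' hb'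
  -- the increments
  obtain ⟨D, hD⟩ : ∃ D : Ch G × Ch G → ℝ, ∀ s s', D (s, s') =
      Qf Q (fun i => X (stp G b s) i - X (stp G b' s') i) - Qf Q (fun i => X b i - X b' i) :=
    ⟨fun p => Qf Q (fun i => X (stp G b p.1) i - X (stp G b' p.2) i) -
      Qf Q (fun i => X b i - X b' i), fun _ _ => rfl⟩
  have hDb : ∀ p : Ch G × Ch G, |D p| ≤ C * (Real.sqrt E / S + 1 / S ^ 2) := by
    rintro ⟨s, s'⟩
    rw [hD, hEdef, hSdef]
    exact hCb b b' hb hb' htot s s'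
  have hbd : θ * T * (C * (Real.sqrt E / S + 1 / S ^ 2)) ≤ 1 := by
    have h1 : T * (Real.sqrt E / S + 1 / S ^ 2) ≤ B := by
      have hs0 : 0 ≤ Real.sqrt E := Real.sqrt_nonneg _
      have hs1 : Real.sqrt E ≤ Real.sqrt (m * (2 * ρ) ^ 2) := Real.sqrt_le_sqrt hEb
      have h2 : T * (Real.sqrt E / S) ≤ Real.sqrt E := by
        have : T * (Real.sqrt E / S) = (T / S) * Real.sqrt E := by ring
        rw [this]
        have hTS1 : T / S ≤ 1 := by rw [div_le_one hSpos]; exact hTS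
        nlinarith
      have h3 : T * (1 / S ^ 2) ≤ 1 := by
        rw [mul_one_div, div_le_one (by positivity)]
        nlinarith
      rw [hB, mul_add]
      linarith
    have h0 : 0 ≤ θ * C := by positivity
    calc θ * T * (C * (Real.sqrt E / S + 1 / S ^ 2))
        = θ * C * (T * (Real.sqrt E / S + 1 / S ^ 2)) := by ring
      _ ≤ θ * C * B := mul_le_mul_of_nonneg_left h1 h0
      _ = θ * (C * B) := by ring
      _ ≤ 1 := hθB
  have hθT : 0 ≤ θ * T := by positivity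
  have hd : ∀ p : Ch G × Ch G, |θ * T * D p| ≤ θ * T * (C * (Real.sqrt E / S + 1 / S ^ 2)) := by
    intro p
    rw [abs_mul, abs_of_nonneg hθT]
    exact mul_le_mul_of_nonneg_left (hDb p) hθT
  have hp0 : ∀ p : Ch G × Ch G, 0 ≤ w G α b p.1 * w G α b' p.2 := fun p =>
    mul_nonneg (hw0 _) (hw0' _)
  have hp1 : ∑ p : Ch G × Ch G, w G α b p.1 * w G α b' p.2 = 1 := by
    rw [Fintype.sum_prod_type]
    simp only []
    simp_rw [← Finset.mul_sum]
    rw [hw1']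
    simp [hw1]
  have hmain := hN0 (Ch G × Ch G) (fun p => w G α b p.1 * w G α b' p.2) (fun p => θ * T * D p)
    hp0 hp1 (fun p => (hd p).trans hbd)
  -- the mean
  obtain ⟨M, hMdef⟩ : ∃ M : ℝ, M = ∑ s, ∑ s', w G α b s * w G α b' s' *
      (Qf Q (fun i => X (stp G b s) i - X (stp G b' s') i) - Qf Q (fun i => X b i - X b' i)) :=
    ⟨_, rfl⟩
  have hMsum : ∑ p : Ch G × Ch G, w G α b p.1 * w G α b' p.2 * (θ * T * D p) = θ * T * M := by
    rw [Fintype.sum_prod_type, hMdef, Finset.mul_sum]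
    refine Finset.sum_congr rfl fun s _ => ?_
    rw [Finset.mul_sum]
    refine Finset.sum_congr rfl fun s' _ => ?_
    rw [← hD]
    ring
  have hMlow : 2 / (S + NE G) * (c * E) + 1 / (S + NE G) ^ 2 * (2 * σ - CQ * ((1 / c) * E)) ≤
      M := by
    rw [hMdef, hN1a hA1 hA2 hA3 m G hm α Q hQs b b' hb hb' htot, ← hSdef]
    have r1 := hR1 (X b) (X b') hXb hXb'
    have r2 := hR2 (X b) hXb
    have r2' := hR2 (X b') hXb'
    have r3 := hR3 (X b) (X b') hXb hXb'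
    rw [← hEdef] at r1 r3
    have r4 := qf_bound Q (fun i => GG G α (X b) i - GG G α (X b') i)
    rw [← hCQdef] at r4
    have r5 := (abs_le.mp r4).1
    have r6 : CQ * ∑ i, (GG G α (X b) i - GG G α (X b') i) ^ 2 ≤ CQ * ((1 / c) * E) :=
      mul_le_mul_of_nonneg_left r3 hCQ0
    have hSN : 0 < S + NE G := by linarith
    refine add_le_add (mul_le_mul_of_nonneg_left r1 (by positivity))
      (mul_le_mul_of_nonneg_left ?_ (by positivity))
    linarith
  -- the second moment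
  have hVle : ∑ p : Ch G × Ch G, w G α b p.1 * w G α b' p.2 * (θ * T * D p) ^ 2 ≤
      (θ * T * (C * (Real.sqrt E / S + 1 / S ^ 2))) ^ 2 := by
    calc ∑ p : Ch G × Ch G, w G α b p.1 * w G α b' p.2 * (θ * T * D p) ^ 2
        ≤ ∑ p : Ch G × Ch G, w G α b p.1 * w G α b' p.2 *
          (θ * T * (C * (Real.sqrt E / S + 1 / S ^ 2))) ^ 2 := by
          refine Finset.sum_le_sum fun p _ => mul_le_mul_of_nonneg_left ?_ (hp0 p)
          rw [← sq_abs (θ * T * D p)]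
          exact pow_le_pow_left₀ (abs_nonneg _) (hd p) 2
      _ = (θ * T * (C * (Real.sqrt E / S + 1 / S ^ 2))) ^ 2 := by
          rw [← Finset.sum_mul, hp1, one_mul]
  have hfin := final_ineq T S (NE G) c σ θ C CQ E M
    (∑ p : Ch G × Ch G, w G α b p.1 * w G α b' p.2 * (θ * T * D p) ^ 2)
    (by linarith) hS1 hNEr (by linarith) hTS hc hσ hθ0 hC hCQ0 hE0 (by linarith) hθc hθσ hMlow hVle
  -- conclusion
  have hexp : ∑ s, ∑ s', w G α b s * w G α b' s' *
      Real.exp (-(θ * T * Qf Q (fun i => X (stp G b s) i - X (stp G b' s') i))) =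
      Real.exp (-(θ * T * Qf Q (fun i => X b i - X b' i))) *
        ∑ p : Ch G × Ch G, w G α b p.1 * w G α b' p.2 * Real.exp (-(θ * T * D p)) := by
    rw [Fintype.sum_prod_type, Finset.mul_sum]
    refine Finset.sum_congr rfl fun s _ => ?_
    rw [Finset.mul_sum]
    refine Finset.sum_congr rfl fun s' _ => ?_
    have : Real.exp (-(θ * T * Qf Q (fun i => X (stp G b s) i - X (stp G b' s') i))) =
        Real.exp (-(θ * T * Qf Q (fun i => X b i - X b' i))) * Real.exp (-(θ * T * D (s, s'))) := by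
      rw [← Real.exp_add, hD]
      congr 1
      ring
    rw [this]
    ring
  rw [hexp]
  apply mul_le_mul_of_nonneg_left _ (Real.exp_pos _).le
  rw [← hEdef, ← hSdef]
  refine hmain.trans ?_
  rw [hMsum]
  exact hfin

end Pool.Agent.H105R3.UrnN1
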